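import Pool.Agent.FAI.Defs

/-!
# A section of `k H` bounds the alpha invariant by `k / r`
-/

open scoped ENNReal NNReal

namespace Pool.Agent.FAI

variable {R : Type*} [CommRing R] [IsDomain R]

/-- The local ring of a prime, as a subalgebra of the fraction field. -/
noncomputable abbrev locAt (P : Ideal R) [P.IsPrime] : Subalgebra R (FractionRing R) :=
  Localization.subalgebra.ofField (FractionRing R) P.primeCompl P.primeCompl_le_nonZeroDivisors

instance locAt_isLocalization (P : Ideal R) [P.IsPrime] :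
    IsLocalization.AtPrime (locAt P) P :=
  Localization.subalgebra.isLocalization_ofField (FractionRing R) P.primeCompl _

theorem locAt_dvr [IsNoetherianRing R] [IsIntegrallyClosed R] (P : Ideal R) [P.IsPrime]
    (h0 : P ≠ ⊥) (h1 : P.height ≤ 1) : IsDiscreteValuationRing (locAt P) := by
  have hloc : IsLocalRing (locAt P) := IsLocalization.AtPrime.isLocalRing (locAt P) P
  have hN : IsNoetherianRing (locAt P) :=
    IsLocalization.isNoetherianRing P.primeCompl (locAt P) inferInstance
  have hI : IsIntegrallyClosed (locAt P) :=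
    isIntegrallyClosed_of_isLocalization (locAt P) P.primeCompl P.primeCompl_le_nonZeroDivisors
  have hcm : (IsLocalRing.maximalIdeal (locAt P)).comap (algebraMap R (locAt P)) = P :=
    IsLocalization.AtPrime.under_maximalIdeal (locAt P) P
  have hinj : Function.Injective (algebraMap R (locAt P)) :=
    IsLocalization.injective (locAt P) P.primeCompl_le_nonZeroDivisors
  have hcomap_inj : ∀ I J : Ideal (locAt P), I.comap (algebraMap R (locAt P)) =
      J.comap (algebraMap R (locAt P)) → I = J := by
    intro I J h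
    have e1 := IsLocalization.map_under P.primeCompl (locAt P) I
    have e2 := IsLocalization.map_under P.primeCompl (locAt P) J
    rw [← e1, ← e2]
    exact congrArg _ h
  have hcl : ∀ Q : Ideal (locAt P), Q ≠ ⊥ → Q.IsPrime → Q = IsLocalRing.maximalIdeal (locAt P) := by
    intro Q hQ hQp
    apply hcomap_inj
    rw [hcm]
    have hle : Q.comap (algebraMap R (locAt P)) ≤ P :=
      (Ideal.comap_mono (IsLocalRing.le_maximalIdeal hQp.ne_top)).trans hcm.le
    have hne : Q.comap (algebraMap R (locAt P)) ≠ ⊥ := by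
      intro h
      apply hQ
      apply hcomap_inj
      rw [h, Ideal.comap_bot_of_injective _ hinj]
    by_contra hcon
    have hlt : Q.comap (algebraMap R (locAt P)) < P := lt_of_le_of_ne hle hcon
    have hpos : (⊥ : Ideal R) < Q.comap (algebraMap R (locAt P)) := bot_lt_iff_ne_bot.mpr hne
    have e1 := Ideal.height_add_one_le_of_lt_of_isPrime hlt
    have e2 := Ideal.height_add_one_le_of_lt_of_isPrime hpos
    have e3 : (1 : ℕ∞) + 1 ≤ P.height := by
      refine le_trans ?_ e1
      gcongr
      exact le_trans (by simp) e2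
    have e4 : (1 : ℕ∞) + 1 ≤ 1 := e3.trans h1
    norm_num at e4
  have hnf : ¬ IsField (locAt P) := by
    intro hf
    apply h0
    have e1 := hcm
    rw [IsLocalRing.isField_iff_maximalIdeal_eq.mp hf, Ideal.comap_bot_of_injective _ hinj] at e1
    exact e1.symm
  have h3 : IsDedekindDomain (locAt P) ↔ (IsIntegrallyClosed (locAt P) ∧
      ∀ Q : Ideal (locAt P), Q ≠ ⊥ → Q.IsPrime → Q = IsLocalRing.maximalIdeal (locAt P)) :=
    (tfae_of_isNoetherianRing_of_isLocalRing_of_isDomain (R := locAt P)).out 2 3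
  have h4 : IsDiscreteValuationRing (locAt P) ↔ IsDedekindDomain (locAt P) :=
    (IsDiscreteValuationRing.TFAE (locAt P) hnf).out 0 2
  exact h4.mpr (h3.mpr ⟨hI, hcl⟩)

theorem logDisc_locAt (P : Ideal R) [P.IsPrime] : logDisc (locAt P) = 1 := by
  have h := Algebra.FormallyUnramified.of_isLocalization (Rₘ := locAt P) P.primeCompl
  have hs : Subsingleton (Ω[(locAt P)⁄R]) := h.subsingleton_kaehlerDifferential
  unfold logDisc
  rw [Module.length_eq_zero]
  simp

variable [Algebra ℂ R] (A : ℕ → Submodule ℂ R) [GradedAlgebra A]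

theorem alpha_le_of_mem [IsNoetherianRing R] [IsIntegrallyClosed R] {r k : ℕ} (hr : 0 < r)
    (hk : 0 < k) {g : R} (hg : g ∈ A k) (hg0 : g ≠ 0) (P : Ideal R) (hP : P.IsPrime)
    (hgP : g ∈ P) (h1 : P.height ≤ 1) (hv : ¬ vertex A ≤ P) :
    alpha A r ≤ (k : ℝ≥0∞) / r := by
  have h0 : P ≠ ⊥ := by
    rintro rfl
    exact hg0 (by simpa using hgP)
  have hV : IsDiscreteValuationRing (locAt P) := locAt_dvr P h0 h1
  have hE : Algebra.EssFiniteType R (locAt P) :=
    Algebra.EssFiniteType.of_isLocalization (locAt P) P.primeCompl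
  have hcm : (IsLocalRing.maximalIdeal (locAt P)).comap (algebraMap R (locAt P)) = P :=
    IsLocalization.AtPrime.under_maximalIdeal (locAt P) P
  have hmem : g ^ r ∈ A (r * k) := by
    have := SetLike.pow_mem_graded r hg
    simpa [smul_eq_mul] using this
  unfold alpha
  refine iInf_le_of_le k (iInf_le_of_le hk (iInf_le_of_le (g ^ r) (iInf_le_of_le hmem
    (iInf_le_of_le (pow_ne_zero _ hg0) ?_))))
  unfold lct
  refine iSup₂_le ?_
  intro t ht
  have key := ht (locAt P) (by rw [hcm]; exact hv)
  rw [logDisc_locAt, map_pow, AddValuation.map_pow] at key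
  have hval : (1 : ℕ∞) ≤ IsDiscreteValuationRing.addVal (locAt P) (algebraMap R (locAt P) g) := by
    rw [Order.one_le_iff_ne_zero]
    intro hz
    have hu := IsDiscreteValuationRing.addVal_eq_zero_iff.mp hz
    have : g ∈ (IsLocalRing.maximalIdeal (locAt P)).comap (algebraMap R (locAt P)) := by
      rw [hcm]; exact hgP
    exact (IsLocalRing.mem_maximalIdeal _).mp (Ideal.mem_comap.mp this) hu
  have hval2 : ((r : ℕ∞) : ℝ≥0∞) ≤
      ((r • IsDiscreteValuationRing.addVal (locAt P) (algebraMap R (locAt P) g) : ℕ∞) :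
        ℝ≥0∞) := by
    gcongr
    calc (r : ℕ∞) = r • (1 : ℕ∞) := by simp
      _ ≤ _ := by gcongr
  have h2 : (t : ℝ≥0∞) * r ≤ k := by
    calc (t : ℝ≥0∞) * r = t * ((r : ℕ∞) : ℝ≥0∞) := by simp
      _ ≤ _ := by gcongr
      _ ≤ _ := key
      _ = k := by simp
  rw [ENNReal.le_div_iff_mul_le (Or.inl (by exact_mod_cast hr.ne')) (Or.inl (by simp))]
  exact h2

end Pool.Agent.FAI
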