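import Mathlib

/-!
# Smooth Fano varieties through their section rings, and the alpha invariant

`X` a smooth projective variety over the complex numbers, `H` an ample Cartier divisor,
`R` the direct sum of the spaces of sections of `k H`, `U` the spectrum of `R` without the
vertex, a `G_m`-torsor over `X = Proj R`.
-/

open scoped ENNReal NNReal

namespace Pool.Agent.FAI

variable {R : Type*} [CommRing R] [Algebra ℂ R]

/-- The ideal of the vertex of the cone: the irrelevant ideal (all elements whose component of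
degree zero vanishes). -/
def vertex (A : ℕ → Submodule ℂ R) [GradedAlgebra A] : Ideal R :=
  (HomogeneousIdeal.irrelevant A).toIdeal

/-- The graded ring `R` is Gorenstein of dimension `n + 1` with `a`-invariant `-r`: there is a
homogeneous regular sequence `θ 0, …, θ n` of positive degrees `d 0, …, d n` whose quotient
`R / (θ)` has finite length (it vanishes in large degrees) and has a one-dimensional socle,
spanned by the class of an element `w` of degree `∑ d i - r`. -/
def IsGorensteinOfIndex (A : ℕ → Submodule ℂ R) [GradedAlgebra A] (n r : ℕ) : Prop :=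
  ∃ (θ : Fin (n + 1) → R) (d : Fin (n + 1) → ℕ) (s b : ℕ) (w : R),
    (∀ i, 0 < d i ∧ θ i ∈ A (d i)) ∧
    (∀ i x, θ i * x ∈ Ideal.span {y | ∃ j < i, y = θ j} →
      x ∈ Ideal.span {y | ∃ j < i, y = θ j}) ∧
    (∀ k, b < k → ∀ x ∈ A k, x ∈ Ideal.span (Set.range θ)) ∧
    s + r = ∑ i, d i ∧ w ∈ A s ∧ w ∉ Ideal.span (Set.range θ) ∧
    (∀ y ∈ vertex A, y * w ∈ Ideal.span (Set.range θ)) ∧
    ∀ z, (∀ y ∈ vertex A, y * z ∈ Ideal.span (Set.range θ)) →
      ∃ c : ℂ, z - c • w ∈ Ideal.span (Set.range θ)

/-- `A` is the graded section ring `R = ⨁ H⁰(X, kH)` of a smooth Fano variety `X` of dimension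
`n` with an ample Cartier divisor `H` such that `-K_X ∼ r H`. -/
structure IsFanoCone [IsDomain R] (A : ℕ → Submodule ℂ R) [GradedAlgebra A] (n r : ℕ) :
    Prop where
  /-- `R` is a finitely generated algebra. -/
  finiteType : Algebra.FiniteType ℂ R
  /-- `R` is integrally closed. -/
  normal : IsIntegrallyClosed R
  /-- `H⁰(X, O) = ℂ`. -/
  degree_zero : ∀ x ∈ A 0, ∃ c : ℂ, x = algebraMap ℂ R c
  /-- `U = Spec R ∖ {vertex}` is smooth over `ℂ`. -/
  smooth : ∀ (P : Ideal R) (_ : P.IsPrime), ¬ vertex A ≤ P → Algebra.IsSmoothAt ℂ P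
  /-- `O(1)` is a line bundle (`H` is Cartier, `U → X` is a `G_m`-torsor): at every point of `U`
  there is a quotient of degree `1` of homogeneous elements not vanishing there. -/
  cartier : ∀ P : Ideal R, P.IsPrime → ¬ vertex A ≤ P →
    ∃ d, ∃ f ∈ A (d + 1), ∃ g ∈ A d, f ∉ P ∧ g ∉ P
  /-- `R` is Gorenstein of dimension `n + 1` and `ω_X = O(-r)`. -/
  gorenstein : IsGorensteinOfIndex A n r

/-- The log discrepancy `A(V) = 1 + ord_V(K_{V/U})` of a prime divisor `V` over `U`: the relative
canonical divisor has order the length of the module of differentials. -/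
noncomputable def logDisc [IsDomain R] (V : Subalgebra R (FractionRing R)) : ℕ∞ :=
  1 + Module.length V (Ω[V⁄R])

/-- For `f ∈ R` homogeneous and `m ≥ 1` let `D = (1/m) div f` (on `X`, or pulled back to `U`).
`(X, t D)` is log canonical: `t ord_V(D) ≤ A(V)` for every prime divisor `V` over `U`, that is,
for every discrete valuation ring `V` with `R ≤ V ≤ Frac R`, essentially of finite type over
`R`, whose centre on `Spec R` is not the vertex. -/
def IsLC [IsDomain R] (A : ℕ → Submodule ℂ R) [GradedAlgebra A] (m : ℕ) (f : R) (t : ℝ≥0) :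
    Prop :=
  ∀ (V : Subalgebra R (FractionRing R)) [IsDiscreteValuationRing V] [Algebra.EssFiniteType R V],
    ¬ vertex A ≤ (IsLocalRing.maximalIdeal V).comap (algebraMap R V) →
      (t : ℝ≥0∞) * (IsDiscreteValuationRing.addVal V (algebraMap R V f) : ℝ≥0∞) ≤
        m * (logDisc V : ℝ≥0∞)

/-- The log canonical threshold of `D = (1/m) div f`. -/
noncomputable def lct [IsDomain R] (A : ℕ → Submodule ℂ R) [GradedAlgebra A] (m : ℕ) (f : R) :
    ℝ≥0∞ :=
  ⨆ (t : ℝ≥0) (_ : IsLC A m f t), (t : ℝ≥0∞)

/-- The alpha invariant: the infimum of the log canonical thresholds of the effective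
`ℚ`-divisors `D = (1/m) div f`, `0 ≠ f ∈ H⁰(X, r m H)`, `m ≥ 1`, that is, `D ∼_ℚ r H = -K_X`. -/
noncomputable def alpha [IsDomain R] (A : ℕ → Submodule ℂ R) [GradedAlgebra A] (r : ℕ) :
    ℝ≥0∞ :=
  ⨅ (m : ℕ) (_ : 0 < m) (f : R) (_ : f ∈ A (r * m)) (_ : f ≠ 0), lct A m f

end Pool.Agent.FAI
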