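import Pool.Agent.FAI.Hilb

/-!
# The Hilbert series of a Gorenstein graded ring: duality
-/

open DirectSum

namespace Pool.Agent.FAI

variable {R : Type*} [CommRing R] [Algebra ℂ R] {A : ℕ → Submodule ℂ R} [GradedAlgebra A]

theorem mem_vertex_of_mem {j : ℕ} (hj : 0 < j) {x : R} (hx : x ∈ A j) : x ∈ vertex A :=
  HomogeneousIdeal.mem_irrelevant_of_mem A hj hx

theorem vertex_le_of {I : Ideal R} (h : ∀ j, 0 < j → ∀ x ∈ A j, x ∈ I) : vertex A ≤ I := by
  unfold vertex
  rw [HomogeneousIdeal.irrelevant_eq_span, Ideal.span_le]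
  intro x hx
  simp only [Set.mem_iUnion] at hx
  obtain ⟨j, hj, hx⟩ := hx
  exact h j hj x hx

/-- Data of an Artinian graded Gorenstein quotient. -/
structure Soc (A : ℕ → Submodule ℂ R) [GradedAlgebra A] (I : Ideal R) (s b : ℕ) (w : R) :
    Prop where
  hom : I.IsHomogeneous A
  big : ∀ k, b < k → ∀ x ∈ A k, x ∈ I
  ws : w ∈ A s
  wI : w ∉ I
  wv : ∀ y ∈ vertex A, y * w ∈ I
  soc : ∀ z, (∀ y ∈ vertex A, y * z ∈ I) → ∃ c : ℂ, z - c • w ∈ I

variable {I : Ideal R} {s b : ℕ} {w : R}

theorem Soc.exists_dual (h : Soc A I s b w) {k : ℕ} {x : R} (hx : x ∈ A k) (hxI : x ∉ I) :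
    k ≤ s ∧ ∃ y ∈ A (s - k), x * y ∉ I := by
  classical
  have hex : ∃ j, ∃ y ∈ A j, x * y ∉ I := ⟨0, 1, SetLike.one_mem_graded A, by simpa using hxI⟩
  have hbd : ∀ j, (∃ y ∈ A j, x * y ∉ I) → j ≤ b := by
    rintro j ⟨y, hy, hxy⟩
    by_contra hcon
    exact hxy (h.big (k + j) (by omega) _ (SetLike.mul_mem_graded hx hy))
  set j := Nat.findGreatest (fun j => ∃ y ∈ A j, x * y ∉ I) b with hj
  obtain ⟨j0, hj0⟩ := hex
  have h1 : ∃ y ∈ A j, x * y ∉ I :=
    Nat.findGreatest_spec (P := fun j => ∃ y ∈ A j, x * y ∉ I) (hbd j0 hj0) hj0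
  obtain ⟨y, hy, hxy⟩ := h1
  have h2 : ∀ z ∈ vertex A, z * (x * y) ∈ I := by
    have h3 : vertex A ≤ col I (x * y) := by
      apply vertex_le_of
      intro i hi z hz
      rw [mem_col]
      by_contra hcon
      have h4 : ∃ y ∈ A (j + i), x * y ∉ I :=
        ⟨y * z, SetLike.mul_mem_graded hy hz, by rwa [← mul_assoc]⟩
      have h5 : j + i ≤ j := Nat.le_findGreatest (hbd _ h4) h4
      omega
    intro z hz
    have := h3 hz
    rw [mem_col] at this
    rwa [mul_comm]
  obtain ⟨c, hc⟩ := h.soc _ h2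
  have hxyk : x * y ∈ A (k + j) := SetLike.mul_mem_graded hx hy
  have hks : k + j = s := by
    by_contra hne
    apply hxy
    have h6 := h.hom (k + j) hc
    rw [decompose_sub, DirectSum.sub_apply, AddSubgroupClass.coe_sub,
      decompose_of_mem_same A hxyk, decompose_of_mem_ne A (Submodule.smul_mem _ c h.ws)
      (Ne.symm hne), sub_zero] at h6
    exact h6
  refine ⟨by omega, y, ?_, hxy⟩
  have : s - k = j := by omega
  rw [this]
  exact hy

theorem Soc.exists_functional (h : Soc A I s b w) :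
    ∃ l : R →ₗ[ℂ] ℂ, ∀ z ∈ A s, l z = 0 ↔ z ∈ I := by
  obtain ⟨l, hl, hk⟩ := Submodule.exists_le_ker_of_notMem (p := piece A I s) (v := w)
    (fun hw => h.wI ((mem_piece A).mp hw).1)
  refine ⟨l, fun z hz => ⟨fun h0 => ?_, fun hzI => ?_⟩⟩
  · have h2 : ∀ y ∈ vertex A, y * z ∈ I := by
      have h3 : vertex A ≤ col I z := by
        apply vertex_le_of
        intro i hi y hy
        rw [mem_col]
        by_contra hcon
        have := (h.exists_dual (SetLike.mul_mem_graded hz hy) hcon).1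
        omega
      intro y hy
      have := h3 hy
      rw [mem_col] at this
      rwa [mul_comm]
    obtain ⟨c, hc⟩ := h.soc z h2
    have h4 : z - c • w ∈ piece A I s :=
      (mem_piece A).mpr ⟨hc, Submodule.sub_mem _ hz (Submodule.smul_mem _ c h.ws)⟩
    have h5 : l (z - c • w) = 0 := hk h4
    rw [map_sub, h0, map_smul, zero_sub, neg_eq_zero, smul_eq_mul] at h5
    have hc0 : c = 0 := (mul_eq_zero.mp h5).resolve_right hl
    rw [hc0, zero_smul, sub_zero] at hc
    exact hc
  · exact hk ((mem_piece A).mpr ⟨hzI, hz⟩)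

theorem Soc.hf_le (h : Soc A I s b w) (hfin : ∀ k, FiniteDimensional ℂ (A k)) {k j : ℕ}
    (hkj : k + j = s) : hf A I k ≤ hf A I j := by
  obtain ⟨l, hl⟩ := h.exists_functional
  have i1 := hfin k
  have i2 := hfin j
  let Φ : A k →ₗ[ℂ] Module.Dual ℂ (A j) := ((LinearMap.mul ℂ R).domRestrict₁₂ (A k) (A j)).compr₂ l
  have hΦ : ∀ (x : A k) (y : A j), Φ x y = l (x * y) := fun x y => rfl
  have hmem : ∀ (x : A k) (y : A j), (x : R) * y ∈ A s := by
    intro x y
    rw [← hkj]
    exact SetLike.mul_mem_graded x.2 y.2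
  have hker : LinearMap.ker Φ = (piece A I k).comap (A k).subtype := by
    ext x
    rw [LinearMap.mem_ker, Submodule.mem_comap, Submodule.subtype_apply, mem_piece]
    constructor
    · intro h0
      refine ⟨?_, x.2⟩
      by_contra hxI
      obtain ⟨hks, y, hy, hxy⟩ := h.exists_dual x.2 hxI
      have hj' : s - k = j := by omega
      rw [hj'] at hy
      have h1 := hΦ x ⟨y, hy⟩
      rw [h0, LinearMap.zero_apply] at h1
      exact hxy ((hl _ (hmem x ⟨y, hy⟩)).mp h1.symm)
    · rintro ⟨hxI, -⟩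
      ext y
      rw [hΦ, LinearMap.zero_apply]
      exact (hl _ (hmem x y)).mpr (Ideal.mul_mem_right _ _ hxI)
  have hrange : LinearMap.range Φ ≤ ((piece A I j).comap (A j).subtype).dualAnnihilator := by
    rintro φ ⟨x, rfl⟩
    rw [Submodule.mem_dualAnnihilator]
    intro y hy
    rw [Submodule.mem_comap, Submodule.subtype_apply, mem_piece] at hy
    rw [hΦ]
    exact (hl _ (hmem x y)).mpr (Ideal.mul_mem_left _ _ hy.1)
  have e1 := LinearMap.finrank_range_add_finrank_ker Φ
  have e2 := Subspace.finrank_add_finrank_dualAnnihilator_eq ((piece A I j).comap (A j).subtype)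
  have e3 := Submodule.finrank_mono hrange
  have e4 : Module.finrank ℂ ((piece A I j).comap (A j).subtype) =
      Module.finrank ℂ (piece A I j) :=
    LinearEquiv.finrank_eq (Submodule.comapSubtypeEquivOfLe inf_le_right)
  have e5 : Module.finrank ℂ ((piece A I k).comap (A k).subtype) =
      Module.finrank ℂ (piece A I k) :=
    LinearEquiv.finrank_eq (Submodule.comapSubtypeEquivOfLe inf_le_right)
  rw [hker, e5] at e1
  rw [e4] at e2
  unfold hf
  omega

theorem Soc.hf_eq (h : Soc A I s b w) (hfin : ∀ k, FiniteDimensional ℂ (A k)) {k j : ℕ}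
    (hkj : k + j = s) : hf A I k = hf A I j :=
  le_antisymm (h.hf_le hfin hkj) (h.hf_le hfin (by omega))

theorem Soc.hf_zero (h : Soc A I s b w) {k : ℕ} (hk : s < k) : hf A I k = 0 := by
  have : piece A I k = A k := by
    ext x
    rw [mem_piece]
    constructor
    · exact fun h => h.2
    · intro hx
      refine ⟨?_, hx⟩
      by_contra hxI
      have := (h.exists_dual hx hxI).1
      omega
  unfold hf
  rw [this]
  simp

theorem hf_nonneg (hfin : ∀ k, FiniteDimensional ℂ (A k)) (I : Ideal R) (k : ℕ) :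
    0 ≤ hf A I k := by
  have i1 := hfin k
  have : Module.finrank ℂ (piece A I k) ≤ Module.finrank ℂ (A k) :=
    Submodule.finrank_mono inf_le_right
  unfold hf
  omega

theorem Soc.hf_pos (h : Soc A I s b w) (hfin : ∀ k, FiniteDimensional ℂ (A k)) :
    0 < hf A I s := by
  have i1 := hfin s
  have hlt : piece A I s < A s := by
    refine lt_of_le_of_ne inf_le_right ?_
    intro heq
    have : w ∈ piece A I s := by
      rw [heq]; exact h.ws
    exact h.wI ((mem_piece A).mp this).1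
  have := Submodule.finrank_lt_finrank_of_lt hlt
  unfold hf
  omega

/-- The Hilbert polynomial numerator of the Artinian quotient. -/
theorem Soc.exists_poly (h : Soc A I s b w) (hfin : ∀ k, FiniteDimensional ℂ (A k)) :
    ∃ P : Polynomial ℤ, HS A I = (P : PowerSeries ℤ) ∧ P.natDegree = s ∧
      P.reflect s = P ∧ 0 < P.eval 1 := by
  set P : Polynomial ℤ := ∑ k ∈ Finset.range (s + 1), Polynomial.monomial k (hf A I k) with hP
  have hcoeff : ∀ k, P.coeff k = hf A I k := by
    intro k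
    rw [hP, Polynomial.finsetSum_coeff]
    simp only [Polynomial.coeff_monomial]
    rw [Finset.sum_ite_eq' (Finset.range (s + 1)) k]
    split_ifs with hk
    · rfl
    · rw [h.hf_zero (by simpa using hk)]
  have hdeg : P.natDegree = s := by
    apply Polynomial.natDegree_eq_of_le_of_coeff_ne_zero
    · rw [Polynomial.natDegree_le_iff_coeff_eq_zero]
      intro k hk
      rw [hcoeff, h.hf_zero hk]
    · rw [hcoeff]
      exact (h.hf_pos hfin).ne'
  refine ⟨P, ?_, hdeg, ?_, ?_⟩
  · ext k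
    rw [HS, PowerSeries.coeff_mk, Polynomial.coeff_coe, hcoeff]
  · ext k
    rw [Polynomial.coeff_reflect, hcoeff, hcoeff]
    by_cases hk : k ≤ s
    · rw [Polynomial.revAt_le hk]
      exact h.hf_eq hfin (by omega)
    · rw [Polynomial.revAt_eq_self_of_lt (by omega)]
  · rw [Polynomial.eval_eq_sum_range, hdeg]
    simp only [one_pow, mul_one, hcoeff]
    exact Finset.sum_pos' (fun k _ => hf_nonneg hfin I k) ⟨s, by simp, h.hf_pos hfin⟩

/-- The ideals generated by initial parts of a sequence. -/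
def ini {n : ℕ} (θ : Fin (n + 1) → R) (j : ℕ) : Ideal R :=
  Ideal.span {y | ∃ i : Fin (n + 1), (i : ℕ) < j ∧ y = θ i}

theorem ini_zero {n : ℕ} (θ : Fin (n + 1) → R) : ini θ 0 = ⊥ := by
  unfold ini
  rw [Ideal.span_eq_bot]
  rintro x ⟨i, hi, -⟩
  omega

theorem ini_succ {n : ℕ} (θ : Fin (n + 1) → R) (i : Fin (n + 1)) :
    ini θ (i + 1) = ini θ i ⊔ Ideal.span {θ i} := by
  unfold ini
  rw [← Ideal.span_union]
  congr 1
  ext y
  simp only [Set.mem_union, Set.mem_singleton_iff]
  constructor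
  · rintro ⟨k, hk, rfl⟩
    rcases Nat.lt_succ_iff_lt_or_eq.mp hk with h | h
    · exact Or.inl ⟨k, h, rfl⟩
    · exact Or.inr (by rw [Fin.ext h])
  · rintro (⟨k, hk, rfl⟩ | rfl)
    · exact ⟨k, by omega, rfl⟩
    · exact ⟨i, by omega, rfl⟩

theorem ini_last {n : ℕ} (θ : Fin (n + 1) → R) :
    ini θ (n + 1) = Ideal.span (Set.range θ) := by
  unfold ini
  congr 1
  ext y
  constructor
  · rintro ⟨k, -, rfl⟩
    exact ⟨k, rfl⟩
  · rintro ⟨k, rfl⟩
    exact ⟨k, k.2, rfl⟩

theorem ini_le {n : ℕ} (θ : Fin (n + 1) → R) (j : ℕ) :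
    ini θ j ≤ Ideal.span (Set.range θ) := by
  unfold ini
  apply Ideal.span_mono
  rintro y ⟨i, -, rfl⟩
  exact ⟨i, rfl⟩

theorem ini_homogeneous {n : ℕ} {θ : Fin (n + 1) → R} {d : Fin (n + 1) → ℕ}
    (hθ : ∀ i, θ i ∈ A (d i)) (j : ℕ) : (ini θ j).IsHomogeneous A := by
  unfold ini
  apply Ideal.homogeneous_span
  rintro y ⟨i, -, rfl⟩
  exact ⟨d i, hθ i⟩

theorem HS_ini [IsDomain R] (hfin : ∀ k, FiniteDimensional ℂ (A k)) {n : ℕ}
    {θ : Fin (n + 1) → R} {d : Fin (n + 1) → ℕ} (hθ : ∀ i, θ i ∈ A (d i))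
    (hreg : ∀ i x, θ i * x ∈ Ideal.span {y | ∃ j < i, y = θ j} →
      x ∈ Ideal.span {y | ∃ j < i, y = θ j})
    (hne : Ideal.span (Set.range θ) ≠ ⊤) :
    HS A (Ideal.span (Set.range θ)) =
      (∏ i, (1 - PowerSeries.X ^ (d i))) * HS A (⊥ : Ideal R) := by
  have hini : ∀ i : Fin (n + 1), Ideal.span {y | ∃ j < i, y = θ j} = ini θ i := fun i => rfl
  have key : ∀ j : ℕ, j ≤ n + 1 → HS A (ini θ j) =
      (∏ i ∈ (Finset.univ.filter fun k : Fin (n + 1) => (k : ℕ) < j),
        (1 - PowerSeries.X ^ (d i))) * HS A (⊥ : Ideal R) := by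
    intro j
    induction j with
    | zero =>
      intro _
      rw [ini_zero]
      simp
    | succ j ih =>
      intro hj
      have ih' := ih (by omega)
      set i : Fin (n + 1) := ⟨j, by omega⟩ with hi
      have h1 : ini θ (j + 1) = ini θ j ⊔ Ideal.span {θ i} := ini_succ θ i
      have h0 : θ i ≠ 0 := by
        intro h0
        have h2 := hreg i 1 (by rw [h0, zero_mul]; exact Ideal.zero_mem _)
        rw [hini] at h2
        exact hne ((Ideal.eq_top_iff_one _).mpr (ini_le θ _ h2))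
      have hcol : col (ini θ j) (θ i) = ini θ j := by
        apply le_antisymm _ (le_col _ _)
        intro x hx
        rw [mem_col] at hx
        exact hreg i x hx
      have h3 := HS_sup hfin (ini_homogeneous hθ j) (hθ i) h0
      rw [hcol] at h3
      have h4 : (Finset.univ.filter fun k : Fin (n + 1) => (k : ℕ) < j + 1) =
          insert i (Finset.univ.filter fun k : Fin (n + 1) => (k : ℕ) < j) := by
        ext k
        simp only [Finset.mem_filter, Finset.mem_univ, true_and, Finset.mem_insert, hi,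
          Fin.ext_iff]
        omega
      rw [h1, h3, h4, Finset.prod_insert (by simp [hi]), ih']
      ring
  have h5 := key (n + 1) le_rfl
  rw [ini_last] at h5
  have h6 : (Finset.univ.filter fun k : Fin (n + 1) => (k : ℕ) < n + 1) = Finset.univ := by
    ext k
    rw [Finset.mem_filter]
    exact ⟨fun h => h.1, fun h => ⟨h, k.2⟩⟩
  rw [h5, h6]

end Pool.Agent.FAI
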