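import Pool.Agent.FAI.Defs

/-!
# Hilbert functions of homogeneous ideals
-/

open DirectSum

namespace Pool.Agent.FAI

variable {R : Type*} [CommRing R] [Algebra ℂ R] (A : ℕ → Submodule ℂ R) [GradedAlgebra A]

theorem comp_eq (x : R) {i j : ℕ} (h : i = j) :
    ((decompose A x i : A i) : R) = (decompose A x j : A j) := by
  rw [h]

theorem finite_piece [IsNoetherianRing R] (h0 : ∀ x ∈ A 0, ∃ c : ℂ, x = algebraMap ℂ R c)
    (k : ℕ) : FiniteDimensional ℂ (A k) := by
  obtain ⟨S, hS, hsp⟩ := (Submodule.fg_span_iff_fg_span_finset_subset (R := R) (A k : Set R)).mp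
    (IsNoetherian.noetherian _)
  have hle : A k ≤ Submodule.span ℂ (S : Set R) := by
    intro x hx
    have hx' : x ∈ Submodule.span R (S : Set R) := by
      rw [← hsp]
      exact Submodule.subset_span hx
    obtain ⟨c, -, hc⟩ := Submodule.mem_span_finset.mp hx'
    have hdec : (decompose A x k : R) = x := decompose_of_mem_same A hx
    rw [← hdec, ← hc, decompose_sum, DFinsupp.finsetSum_apply,
      AddSubmonoidClass.coe_finsetSum]
    refine Submodule.sum_mem _ ?_
    intro s hs
    have hsk : s ∈ A k := hS hs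
    have e1 : (decompose A (c s • s) k : R) = (decompose A (c s) 0 : R) * s := by
      rw [smul_eq_mul]
      exact (comp_eq A _ (zero_add k).symm).trans
        (coe_decompose_mul_add_of_right_mem (i := 0) A (a := c s) hsk)
    rw [e1]
    obtain ⟨z, hz⟩ := h0 _ (decompose A (c s) 0).2
    rw [hz, ← Algebra.smul_def]
    exact Submodule.smul_mem _ _ (Submodule.subset_span hs)
  have hfin : FiniteDimensional ℂ (Submodule.span ℂ (S : Set R)) :=
    FiniteDimensional.span_finset ℂ S
  exact Submodule.finiteDimensional_of_le hle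

/-- The piece of degree `k` of a homogeneous ideal. -/
def piece (I : Ideal R) (k : ℕ) : Submodule ℂ R := I.restrictScalars ℂ ⊓ A k

theorem mem_piece {I : Ideal R} {k : ℕ} {x : R} : x ∈ piece A I k ↔ x ∈ I ∧ x ∈ A k := by
  simp [piece]

/-- The Hilbert function of `R / I`. -/
noncomputable def hf (I : Ideal R) (k : ℕ) : ℤ :=
  (Module.finrank ℂ (A k) : ℤ) - Module.finrank ℂ (piece A I k)

/-- The elements whose product with `f` lies in `I`. -/
def col (I : Ideal R) (f : R) : Ideal R := Submodule.comap (LinearMap.lsmul R R f) I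

theorem mem_col {I : Ideal R} {f x : R} : x ∈ col I f ↔ f * x ∈ I := by
  simp [col]

theorem le_col (I : Ideal R) (f : R) : I ≤ col I f := by
  intro x hx
  rw [mem_col]
  exact I.mul_mem_left f hx

variable {A}

theorem col_homogeneous {I : Ideal R} (hI : I.IsHomogeneous A) {e : ℕ} {f : R} (hf : f ∈ A e) :
    (col I f).IsHomogeneous A := by
  intro i x hx
  rw [mem_col] at hx ⊢
  rw [← coe_decompose_mul_add_of_left_mem A hf]
  exact hI (e + i) hx

theorem sup_homogeneous {I : Ideal R} (hI : I.IsHomogeneous A) {e : ℕ} {f : R} (hf : f ∈ A e) :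
    (I ⊔ Ideal.span {f}).IsHomogeneous A := by
  apply Ideal.IsHomogeneous.sup hI
  apply Ideal.homogeneous_span
  intro x hx
  rw [Set.mem_singleton_iff] at hx
  exact ⟨e, hx ▸ hf⟩

theorem piece_sup_low {I : Ideal R} (hI : I.IsHomogeneous A) {e : ℕ} {f : R} (hf : f ∈ A e)
    {k : ℕ} (hk : k < e) : piece A (I ⊔ Ideal.span {f}) k = piece A I k := by
  ext x
  rw [mem_piece, mem_piece]
  constructor
  · rintro ⟨hx, hxk⟩
    refine ⟨?_, hxk⟩
    obtain ⟨a, ha, b, hb, rfl⟩ := Submodule.mem_sup.mp hx
    obtain ⟨c, rfl⟩ := Ideal.mem_span_singleton'.mp hb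
    have h1 : ((decompose A (a + c * f) k : A k) : R) = a + c * f := decompose_of_mem_same A hxk
    rw [← h1, decompose_add, DirectSum.add_apply, Submodule.coe_add,
      coe_decompose_mul_of_right_mem_of_not_le A hf (by omega), add_zero]
    exact hI k ha
  · rintro ⟨hx, hxk⟩
    exact ⟨Ideal.mem_sup_left hx, hxk⟩

theorem piece_sup_high {I : Ideal R} (hI : I.IsHomogeneous A) {e : ℕ} {f : R} (hf : f ∈ A e)
    (k : ℕ) : piece A (I ⊔ Ideal.span {f}) (e + k) =
      piece A I (e + k) ⊔ (A k).map (LinearMap.mulLeft ℂ f) := by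
  ext x
  constructor
  · intro hx'
    obtain ⟨hx, hxk⟩ := (mem_piece A).mp hx'
    obtain ⟨a, ha, b, hb, rfl⟩ := Submodule.mem_sup.mp hx
    obtain ⟨c, rfl⟩ := Ideal.mem_span_singleton'.mp hb
    have h1 : ((decompose A (a + c * f) (e + k) : A (e + k)) : R) = a + c * f :=
      decompose_of_mem_same A hxk
    refine Submodule.mem_sup.mpr ⟨(decompose A a (e + k) : A (e + k)), ?_, f * (decompose A c k : A k), ?_, ?_⟩
    · rw [mem_piece]
      exact ⟨hI (e + k) ha, (decompose A a (e + k)).2⟩
    · rw [Submodule.mem_map]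
      exact ⟨_, (decompose A c k).2, rfl⟩
    · rw [← h1, decompose_add, DirectSum.add_apply, Submodule.coe_add, mul_comm c f,
        coe_decompose_mul_add_of_left_mem A hf]
  · intro hx'
    obtain ⟨a, ha, b, hb, rfl⟩ := Submodule.mem_sup.mp hx'
    rw [mem_piece] at ha
    rw [Submodule.mem_map] at hb
    obtain ⟨c, hc, rfl⟩ := hb
    refine (mem_piece A).mpr ⟨?_, ?_⟩
    · refine Ideal.add_mem _ (Ideal.mem_sup_left ha.1) (Ideal.mem_sup_right ?_)
      rw [LinearMap.mulLeft_apply]
      exact Ideal.mul_mem_right _ _ (Ideal.mem_span_singleton_self f)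
    · refine Submodule.add_mem _ ha.2 ?_
      rw [LinearMap.mulLeft_apply]
      exact SetLike.mul_mem_graded hf hc

theorem piece_inf_map {I : Ideal R} {e : ℕ} {f : R} (hf : f ∈ A e) (k : ℕ) :
    piece A I (e + k) ⊓ (A k).map (LinearMap.mulLeft ℂ f) =
      (piece A (col I f) k).map (LinearMap.mulLeft ℂ f) := by
  ext x
  rw [Submodule.mem_inf, mem_piece, Submodule.mem_map, Submodule.mem_map]
  constructor
  · rintro ⟨⟨hx, -⟩, c, hc, rfl⟩
    refine ⟨c, ?_, rfl⟩
    rw [mem_piece, mem_col]
    exact ⟨hx, hc⟩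
  · rintro ⟨c, hc, rfl⟩
    rw [mem_piece, mem_col] at hc
    exact ⟨⟨hc.1, SetLike.mul_mem_graded hf hc.2⟩, c, hc.2, rfl⟩

variable [IsDomain R]

theorem hf_sup_high (hfin : ∀ k, FiniteDimensional ℂ (A k)) {I : Ideal R}
    (hI : I.IsHomogeneous A) {e : ℕ} {f : R} (hf' : f ∈ A e) (hf0 : f ≠ 0) (k : ℕ) :
    hf A (I ⊔ Ideal.span {f}) (e + k) = hf A I (e + k) - hf A (col I f) k := by
  have hinj : Function.Injective (LinearMap.mulLeft ℂ f) := by
    intro x y hxy
    simpa [hf0] using hxy
  have hfp : ∀ (J : Ideal R) (j : ℕ), FiniteDimensional ℂ (piece A J j) := by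
    intro J j
    have := hfin j
    exact Submodule.finiteDimensional_of_le (inf_le_right)
  have i1 := hfp I (e + k)
  have i2 := hfin k
  have i3 : FiniteDimensional ℂ ((A k).map (LinearMap.mulLeft ℂ f)) := inferInstance
  have key := Submodule.finrank_sup_add_finrank_inf_eq (piece A I (e + k))
    ((A k).map (LinearMap.mulLeft ℂ f))
  rw [← piece_sup_high hI hf' k, piece_inf_map hf' k] at key
  have h1 : Module.finrank ℂ ((A k).map (LinearMap.mulLeft ℂ f)) = Module.finrank ℂ (A k) :=
    (LinearEquiv.finrank_eq (Submodule.equivMapOfInjective _ hinj _)).symm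
  have h2 : Module.finrank ℂ ((piece A (col I f) k).map (LinearMap.mulLeft ℂ f)) =
      Module.finrank ℂ (piece A (col I f) k) :=
    (LinearEquiv.finrank_eq (Submodule.equivMapOfInjective _ hinj _)).symm
  rw [h1, h2] at key
  unfold hf
  push_cast [← Nat.cast_add] at *
  omega

theorem hf_sup_low {I : Ideal R}
    (hI : I.IsHomogeneous A) {e : ℕ} {f : R} (hf' : f ∈ A e) {k : ℕ} (hk : k < e) :
    hf A (I ⊔ Ideal.span {f}) k = hf A I k := by
  unfold hf
  rw [piece_sup_low hI hf' hk]

variable (A) in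
/-- The Hilbert series of `R / I`. -/
noncomputable def HS (I : Ideal R) : PowerSeries ℤ := PowerSeries.mk (hf A I)

theorem HS_sup (hfin : ∀ k, FiniteDimensional ℂ (A k)) {I : Ideal R}
    (hI : I.IsHomogeneous A) {e : ℕ} {f : R} (hf' : f ∈ A e) (hf0 : f ≠ 0) :
    HS A (I ⊔ Ideal.span {f}) = HS A I - PowerSeries.X ^ e * HS A (col I f) := by
  ext k
  rw [map_sub, PowerSeries.coeff_X_pow_mul']
  unfold HS
  rw [PowerSeries.coeff_mk, PowerSeries.coeff_mk]
  split_ifs with h
  · obtain ⟨j, rfl⟩ := Nat.exists_eq_add_of_le h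
    rw [PowerSeries.coeff_mk, hf_sup_high hfin hI hf' hf0]
    simp
  · rw [hf_sup_low hI hf' (by omega), sub_zero]

/-- Being a polynomial after multiplication by a power of `1 - X`. -/
def PoleOne (F : PowerSeries ℤ) : Prop :=
  ∃ (a : ℕ) (Q : Polynomial ℤ), (1 - PowerSeries.X) ^ a * F = (Q : PowerSeries ℤ)

theorem PoleOne.of_pow {F : PowerSeries ℤ} {a : ℕ} {Q : Polynomial ℤ}
    (h : (1 - PowerSeries.X) ^ a * F = (Q : PowerSeries ℤ)) {b : ℕ} (hab : a ≤ b) :
    ∃ Q' : Polynomial ℤ, (1 - PowerSeries.X) ^ b * F = (Q' : PowerSeries ℤ) := by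
  obtain ⟨c, rfl⟩ := Nat.exists_eq_add_of_le hab
  refine ⟨(1 - Polynomial.X) ^ c * Q, ?_⟩
  rw [pow_add, mul_comm ((1 - PowerSeries.X : PowerSeries ℤ) ^ a), mul_assoc, h]
  push_cast
  ring

theorem PoleOne.add_mul {F G : PowerSeries ℤ} (hF : PoleOne F) (hG : PoleOne G)
    (S : Polynomial ℤ) : PoleOne (F + S * G) := by
  obtain ⟨a, Q, hQ⟩ := hF
  obtain ⟨b, T, hT⟩ := hG
  obtain ⟨Q', hQ'⟩ := PoleOne.of_pow hQ (le_max_left a b)
  obtain ⟨T', hT'⟩ := PoleOne.of_pow hT (le_max_right a b)
  refine ⟨max a b, Q' + S * T', ?_⟩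
  push_cast
  rw [← hQ', ← hT']
  ring

theorem PoleOne.of_mul {F : PowerSeries ℤ} (h : PoleOne ((1 - PowerSeries.X) * F)) :
    PoleOne F := by
  obtain ⟨a, Q, hQ⟩ := h
  exact ⟨a + 1, Q, by rw [pow_succ, mul_assoc, hQ]⟩

theorem pole_one [IsNoetherianRing R] (h0 : ∀ x ∈ A 0, ∃ c : ℂ, x = algebraMap ℂ R c)
    (hcart : ∀ P : Ideal R, P.IsPrime → ¬ vertex A ≤ P →
      ∃ d, ∃ f ∈ A (d + 1), ∃ g ∈ A d, f ∉ P ∧ g ∉ P)
    (I : Ideal R) (hI : I.IsHomogeneous A) : PoleOne (HS A I) := by
  have hfin := finite_piece A h0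
  refine WellFoundedGT.induction (motive := fun I : Ideal R => I.IsHomogeneous A →
    PoleOne (HS A I)) I ?_ hI
  · clear hI I
    intro I ih hI
    by_cases htop : I = ⊤
    · refine ⟨0, 0, ?_⟩
      rw [pow_zero, one_mul, Polynomial.coe_zero]
      ext k
      unfold HS hf
      have : piece A I k = A k := by
        rw [htop]
        ext x
        rw [mem_piece]
        simp
      rw [PowerSeries.coeff_mk, this]
      simp
    by_cases hred : ∃ a b : R, SetLike.IsHomogeneousElem A a ∧ SetLike.IsHomogeneousElem A b ∧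
        a * b ∈ I ∧ a ∉ I ∧ b ∉ I
    · obtain ⟨a, b, ⟨e, ha⟩, -, hab, haI, hbI⟩ := hred
      have ha0 : a ≠ 0 := by
        rintro rfl
        exact haI I.zero_mem
      have h1 := HS_sup hfin hI ha ha0
      have h2 := ih (I ⊔ Ideal.span {a}) (lt_of_le_of_ne le_sup_left (by
        intro h
        apply haI
        rw [h]
        exact Ideal.mem_sup_right (Ideal.mem_span_singleton_self a))) (sup_homogeneous hI ha)
      have h3 := ih (col I a) (lt_of_le_of_ne (le_col I a) (by
        intro h
        apply hbI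
        rw [h, mem_col]
        exact hab)) (col_homogeneous hI ha)
      have h4 : HS A I = HS A (I ⊔ Ideal.span {a}) +
          ((Polynomial.X ^ e : Polynomial ℤ) : PowerSeries ℤ) * HS A (col I a) := by
        rw [h1]
        push_cast
        ring
      rw [h4]
      exact PoleOne.add_mul h2 h3 _
    · have hP : I.IsPrime := by
        apply hI.isPrime_of_homogeneous_mem_or_mem htop
        intro x y hx hy hxy
        by_contra hcon
        rw [not_or] at hcon
        exact hred ⟨x, y, hx, hy, hxy, hcon.1, hcon.2⟩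
      have hcol : ∀ f : R, f ∉ I → col I f = I := by
        intro f hf
        apply le_antisymm _ (le_col I f)
        intro x hx
        rw [mem_col] at hx
        exact (hP.mem_or_mem hx).resolve_left hf
      by_cases hv : vertex A ≤ I
      · refine ⟨0, Polynomial.C (hf A I 0), ?_⟩
        rw [pow_zero, one_mul, Polynomial.coe_C]
        ext k
        rw [PowerSeries.coeff_C]
        unfold HS
        rw [PowerSeries.coeff_mk]
        split_ifs with hk
        · rw [hk]
        · unfold hf
          have : piece A I k = A k := by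
            ext x
            rw [mem_piece]
            constructor
            · exact fun h => h.2
            · intro h
              exact ⟨hv (HomogeneousIdeal.mem_irrelevant_of_mem A (by omega) h), h⟩
          rw [this]
          simp
      · obtain ⟨d, f, hf, g, hg, hfI, hgI⟩ := hcart I hP hv
        have hf0 : f ≠ 0 := by
          rintro rfl
          exact hfI I.zero_mem
        have hg0 : g ≠ 0 := by
          rintro rfl
          exact hgI I.zero_mem
        have h1 := HS_sup hfin hI hf hf0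
        have h2 := HS_sup hfin hI hg hg0
        rw [hcol f hfI] at h1
        rw [hcol g hgI] at h2
        have i1 := ih (I ⊔ Ideal.span {f}) (lt_of_le_of_ne le_sup_left (by
          intro h
          apply hfI
          rw [h]
          exact Ideal.mem_sup_right (Ideal.mem_span_singleton_self f))) (sup_homogeneous hI hf)
        have i2 := ih (I ⊔ Ideal.span {g}) (lt_of_le_of_ne le_sup_left (by
          intro h
          apply hgI
          rw [h]
          exact Ideal.mem_sup_right (Ideal.mem_span_singleton_self g))) (sup_homogeneous hI hg)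
        apply PoleOne.of_mul
        have h4 : (1 - PowerSeries.X) * HS A I = HS A (I ⊔ Ideal.span {f}) +
            ((-Polynomial.X : Polynomial ℤ) : PowerSeries ℤ) * HS A (I ⊔ Ideal.span {g}) := by
          rw [h1, h2]
          push_cast
          ring
        rw [h4]
        exact PoleOne.add_mul i1 i2 _

end Pool.Agent.FAI
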