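import Mathlib

/-!
# The numerical part: palindromic numerators of Hilbert series
-/

namespace Pool.Agent.FAI

open Polynomial

/-- Coefficients of `(1 - X) ^ M`. -/
theorem coeff_one_sub_pow (M i : ℕ) :
    ((1 - X : ℤ[X]) ^ M).coeff i = (-1) ^ i * (M.choose i : ℤ) := by
  induction M generalizing i with
  | zero =>
    rcases i with - | i
    · simp
    · simp [Polynomial.coeff_one]
  | succ M ih =>
    rw [pow_succ, mul_sub, mul_one, coeff_sub]
    rcases i with - | i
    · rw [ih]
      simp
    · rw [coeff_mul_X, ih, ih, Nat.choose_succ_succ]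
      push_cast
      ring

theorem sum_alt (M j : ℕ) :
    ∑ i ∈ Finset.range (j + 1), (-1 : ℤ) ^ i * ((M + 1).choose i : ℤ) =
      (-1) ^ j * (M.choose j : ℤ) := by
  induction j with
  | zero => simp
  | succ j ih =>
    rw [Finset.sum_range_succ, ih, Nat.choose_succ_succ]
    push_cast
    ring

theorem choose_lt {M j : ℕ} (h : 2 * j + 1 < M) : M.choose j < M.choose (j + 1) := by
  have h1 := Nat.choose_succ_right_eq M j
  have h2 : 0 < M.choose j := Nat.choose_pos (by omega)
  by_contra hcon
  rw [not_lt] at hcon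
  have h3 : M.choose (j + 1) * (j + 1) ≤ M.choose j * (j + 1) := Nat.mul_le_mul_right _ hcon
  rw [h1] at h3
  have h4 := Nat.le_of_mul_le_mul_left h3 h2
  omega

theorem choose_le {M j : ℕ} (h : 2 * j + 1 ≤ M) : M.choose j ≤ M.choose (j + 1) := by
  have h1 := Nat.choose_succ_right_eq M j
  have h2 : 0 < M.choose j := Nat.choose_pos (by omega)
  by_contra hcon
  rw [not_le] at hcon
  have h3 : M.choose (j + 1) * (j + 1) < M.choose j * (j + 1) :=
    Nat.mul_lt_mul_of_pos_right hcon (by omega)
  rw [h1] at h3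
  have h4 := Nat.lt_of_mul_lt_mul_left h3
  omega

theorem numeric {h : ℤ[X]} {M N r k : ℕ} (hN : N + r = M) (hr : 1 ≤ r)
    (hdeg : h.natDegree = N) (hpal : h.reflect N = h) (hpos : 0 < h.eval 1)
    (hco : ∀ i < k, h.coeff i = (-1) ^ i * (M.choose i : ℤ)) : k ≤ 2 * (N / 4) + 1 := by
  have hp : ∀ i j, i + j = N → h.coeff i = h.coeff j := by
    intro i j hij
    have h1 : (h.reflect N).coeff i = h.coeff i := by rw [hpal]
    rw [coeff_reflect, revAt_le (by omega)] at h1
    rw [← h1]
    congr 1
    omega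
  by_contra hcon
  rw [not_le] at hcon
  obtain ⟨m, hm⟩ : ∃ m, m = N / 2 := ⟨_, rfl⟩
  have heval : h.eval 1 = ∑ i ∈ Finset.range (N + 1), h.coeff i := by
    rw [eval_eq_sum_range, hdeg]
    simp
  have hpar : N = 2 * m ∨ N = 2 * m + 1 := by omega
  by_cases hk : m + 2 ≤ k
  · have c1 := hco (m + 1) (by omega)
    rcases hpar with hN2 | hN2
    · rcases Nat.eq_zero_or_pos m with hm0 | hm0
      · subst hm0
        have h1 : h.coeff 1 = 0 := coeff_eq_zero_of_natDegree_lt (by omega)
        rw [zero_add] at c1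
        rw [h1, Nat.choose_one_right] at c1
        have : (M : ℤ) = 0 := by linarith
        have : M = 0 := by exact_mod_cast this
        omega
      · have c2 := hco (m - 1) (by omega)
        rw [hp (m + 1) (m - 1) (by omega), c2] at c1
        have e1 : (-1 : ℤ) ^ (m + 1) = (-1) ^ (m - 1) := by
          have : m + 1 = (m - 1) + 2 := by omega
          rw [this, pow_add]
          norm_num
        rw [e1] at c1
        have e2 : (M.choose (m - 1) : ℤ) = M.choose (m + 1) :=
          mul_left_cancel₀ (pow_ne_zero _ (by norm_num)) c1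
        have e3 : M.choose (m - 1) = M.choose (m + 1) := by exact_mod_cast e2
        have e4 : M.choose (m - 1) < M.choose m := by
          have := choose_lt (M := M) (j := m - 1) (by omega)
          rwa [show m - 1 + 1 = m by omega] at this
        have e5 : M.choose m ≤ M.choose (m + 1) := choose_le (by omega)
        omega
    · have c2 := hco m (by omega)
      rw [hp (m + 1) m (by omega), c2] at c1
      rw [pow_succ] at c1
      have e1 : (-1 : ℤ) ^ m * (M.choose m + M.choose (m + 1) : ℤ) = 0 := by linarith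
      have e2 : (M.choose m + M.choose (m + 1) : ℤ) = 0 :=
        (mul_eq_zero.mp e1).resolve_left (pow_ne_zero _ (by norm_num))
      have e3 : 0 < M.choose m := Nat.choose_pos (by omega)
      have e4 : (0 : ℤ) < M.choose m := by exact_mod_cast e3
      have e5 : (0 : ℤ) ≤ M.choose (m + 1) := by positivity
      linarith
  · have hmodd : m % 2 = 1 := by omega
    have hkm : k = m + 1 := by omega
    obtain ⟨M', rfl⟩ : ∃ M', M = M' + 1 := ⟨M - 1, by omega⟩
    have hodd : (-1 : ℤ) ^ m = -1 := by
      apply Odd.neg_one_pow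
      exact Nat.odd_iff.mpr hmodd
    rcases hpar with hN2 | hN2
    · -- `N = 2 m`
      have s1 : ∑ i ∈ Finset.range m, h.coeff i =
          ∑ i ∈ Finset.range m, (-1 : ℤ) ^ i * ((M' + 1).choose i : ℤ) :=
        Finset.sum_congr rfl fun i hi => hco i (by
          have := Finset.mem_range.mp hi
          omega)
      obtain ⟨m', rfl⟩ : ∃ m', m = m' + 1 := ⟨m - 1, by omega⟩
      have s2 : ∑ i ∈ Finset.range (m' + 1), h.coeff i = (-1) ^ m' * (M'.choose m' : ℤ) := by
        rw [s1, sum_alt]
      have s3 : h.eval 1 = 2 * ((-1) ^ m' * (M'.choose m' : ℤ)) + h.coeff (m' + 1) := by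
        rw [heval, hN2]
        rw [show 2 * (m' + 1) + 1 = (m' + 1 + 1) + (m' + 1) by ring, Finset.sum_range_add,
          Finset.sum_range_succ, s2]
        have s4 : ∑ x ∈ Finset.range (m' + 1), h.coeff (m' + 1 + 1 + x) =
            ∑ i ∈ Finset.range (m' + 1), h.coeff i := by
          rw [← Finset.sum_range_reflect]
          apply Finset.sum_congr rfl
          intro i hi
          have := Finset.mem_range.mp hi
          apply hp
          omega
        rw [s4, s2]
        ring
      have s5 : (-1 : ℤ) ^ m' = 1 := by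
        apply Even.neg_one_pow
        exact Nat.even_iff.mpr (by omega)
      rw [hco (m' + 1) (by omega), hodd, s5, Nat.choose_succ_succ] at s3
      have s6 : M'.choose m' < M'.choose (m' + 1) := choose_lt (by omega)
      have s7 : (M'.choose m' : ℤ) < M'.choose (m' + 1) := by exact_mod_cast s6
      push_cast at s3
      linarith
    · -- `N = 2 m + 1`
      have s1 : ∑ i ∈ Finset.range (m + 1), h.coeff i =
          ∑ i ∈ Finset.range (m + 1), (-1 : ℤ) ^ i * ((M' + 1).choose i : ℤ) :=
        Finset.sum_congr rfl fun i hi => hco i (by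
          have := Finset.mem_range.mp hi
          omega)
      rw [sum_alt] at s1
      have s3 : h.eval 1 = 2 * ((-1) ^ m * (M'.choose m : ℤ)) := by
        rw [heval, hN2]
        rw [show 2 * m + 1 + 1 = (m + 1) + (m + 1) by ring, Finset.sum_range_add, s1]
        have s4 : ∑ x ∈ Finset.range (m + 1), h.coeff (m + 1 + x) =
            ∑ i ∈ Finset.range (m + 1), h.coeff i := by
          rw [← Finset.sum_range_reflect]
          apply Finset.sum_congr rfl
          intro i hi
          have := Finset.mem_range.mp hi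
          apply hp
          omega
        rw [s4, s1]
        ring
      rw [hodd] at s3
      have s5 : (0 : ℤ) ≤ M'.choose m := by positivity
      linarith

/-- Cancelling the cyclotomic part. -/
theorem exists_numerator {n : ℕ} {d : Fin (n + 1) → ℕ} (hd : ∀ i, 0 < d i) {s r : ℕ}
    (hs : s + r = ∑ i, d i) {H : PowerSeries ℤ} {P : ℤ[X]}
    (hP : (P : PowerSeries ℤ) = (∏ i, (1 - PowerSeries.X ^ (d i))) * H)
    (hPdeg : P.natDegree = s) (hPpal : P.reflect s = P) (hPpos : 0 < P.eval 1)
    {a : ℕ} {Q : ℤ[X]} (hQ : (1 - PowerSeries.X) ^ a * H = (Q : PowerSeries ℤ)) :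
    ∃ (h : ℤ[X]) (N : ℕ), N + r = n + 1 ∧ h.natDegree = N ∧ h.reflect N = h ∧
      0 < h.eval 1 ∧ (1 - PowerSeries.X) ^ (n + 1) * H = (h : PowerSeries ℤ) := by
  set D : ℤ[X] := ∏ i, ∑ j ∈ Finset.range (d i), (X : ℤ[X]) ^ j with hD
  set E : ℕ := ∑ i, (d i - 1) with hE
  have hEs : E + (n + 1) = s + r := by
    rw [hs, hE]
    have : ∑ i : Fin (n + 1), d i = ∑ i : Fin (n + 1), ((d i - 1) + 1) :=
      Finset.sum_congr rfl fun i _ => by have := hd i; omega
    rw [this, Finset.sum_add_distrib]
    simp
  have hgm : ∀ m : ℕ, 0 < m → (∑ j ∈ Finset.range m, (X : ℤ[X]) ^ j).Monic := by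
    intro m hm
    exact Polynomial.monic_geom_sum_X (by omega)
  have hDm : D.Monic := Polynomial.monic_prod_of_monic _ _ fun i _ => hgm (d i) (hd i)
  have hgdeg : ∀ m : ℕ, 0 < m → (∑ j ∈ Finset.range m, (X : ℤ[X]) ^ j).natDegree = m - 1 := by
    intro m hm
    apply Polynomial.natDegree_eq_of_le_of_coeff_ne_zero
    · rw [Polynomial.natDegree_le_iff_coeff_eq_zero]
      intro k hk
      rw [Polynomial.finsetSum_coeff]
      apply Finset.sum_eq_zero
      intro j hj
      have := Finset.mem_range.mp hj
      rw [Polynomial.coeff_X_pow, if_neg (by omega)]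
    · rw [Polynomial.finsetSum_coeff]
      simp only [Polynomial.coeff_X_pow]
      rw [Finset.sum_ite_eq (Finset.range m) (m - 1)]
      rw [if_pos (Finset.mem_range.mpr (by omega))]
      norm_num
  have hgrefl : ∀ m : ℕ, 0 < m → (∑ j ∈ Finset.range m, (X : ℤ[X]) ^ j).reflect (m - 1) =
      ∑ j ∈ Finset.range m, (X : ℤ[X]) ^ j := by
    intro m hm
    ext k
    rw [Polynomial.coeff_reflect, Polynomial.finsetSum_coeff, Polynomial.finsetSum_coeff]
    simp only [Polynomial.coeff_X_pow]
    rw [Finset.sum_ite_eq, Finset.sum_ite_eq]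
    by_cases hk : k ≤ m - 1
    · rw [Polynomial.revAt_le hk, if_pos (Finset.mem_range.mpr (by omega)),
        if_pos (Finset.mem_range.mpr (by omega))]
    · rw [Polynomial.revAt_eq_self_of_lt (by omega)]
  have hDdeg : D.natDegree = E := by
    rw [hD, Polynomial.natDegree_prod_of_monic _ _ fun i _ => hgm (d i) (hd i), hE]
    exact Finset.sum_congr rfl fun i _ => hgdeg (d i) (hd i)
  have hDrefl : D.reflect E = D := by
    have key : ∀ S : Finset (Fin (n + 1)),
        (∏ i ∈ S, ∑ j ∈ Finset.range (d i), (X : ℤ[X]) ^ j).natDegree ≤ ∑ i ∈ S, (d i - 1) ∧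
        (∏ i ∈ S, ∑ j ∈ Finset.range (d i), (X : ℤ[X]) ^ j).reflect (∑ i ∈ S, (d i - 1)) =
          ∏ i ∈ S, ∑ j ∈ Finset.range (d i), (X : ℤ[X]) ^ j := by
      intro S
      induction S using Finset.induction_on with
      | empty => simp
      | insert i S hi ih =>
        rw [Finset.prod_insert hi, Finset.sum_insert hi]
        refine ⟨?_, ?_⟩
        · refine (Polynomial.natDegree_mul_le).trans ?_
          rw [hgdeg (d i) (hd i)]
          have := ih.1
          omega
        · rw [Polynomial.reflect_mul _ _ (hgdeg (d i) (hd i)).le ih.1, hgrefl (d i) (hd i),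
            ih.2]
    exact (key Finset.univ).2
  have hDeval : 0 < D.eval 1 := by
    rw [hD, Polynomial.eval_prod]
    apply Finset.prod_pos
    intro i _
    rw [Polynomial.eval_finsetSum]
    simp only [Polynomial.eval_pow, Polynomial.eval_X, one_pow]
    have := hd i
    simp
    omega
  have hprod : (∏ i, (1 - (X : ℤ[X]) ^ (d i))) = (1 - X) ^ (n + 1) * D := by
    rw [hD]
    have : ∀ i : Fin (n + 1), (1 - (X : ℤ[X]) ^ (d i)) =
        (1 - X) * ∑ j ∈ Finset.range (d i), (X : ℤ[X]) ^ j := fun i =>
      (mul_neg_geom_sum _ _).symm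
    rw [Finset.prod_congr rfl fun i _ => this i, Finset.prod_mul_distrib]
    simp
  have hP2 : (P : PowerSeries ℤ) = (((1 - X) ^ (n + 1) * D : ℤ[X]) : PowerSeries ℤ) * H := by
    rw [hP, ← hprod]
    congr 1
    rw [← Polynomial.coeToPowerSeries.ringHom_apply, map_prod]
    apply Finset.prod_congr rfl
    intro i _
    rw [Polynomial.coeToPowerSeries.ringHom_apply]
    push_cast
    rfl
  -- divisibility
  have hdiv0 : (1 - X) ^ a * P = D * ((1 - X) ^ (n + 1) * Q) := by
    apply Polynomial.coe_injective ℤ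
    push_cast
    rw [hP2, ← hQ]
    push_cast
    ring
  have hrel : IsRelPrime D ((1 - X) ^ a : ℤ[X]) := by
    apply IsRelPrime.pow_right
    have hirr : Irreducible (X - C (1 : ℤ) : ℤ[X]) := Polynomial.irreducible_X_sub_C 1
    have hirr2 : Irreducible (1 - X : ℤ[X]) := by
      have : (1 - X : ℤ[X]) = -(X - C 1) := by
        rw [map_one]
        ring
      rw [this]
      exact (Associated.neg_left (Associated.refl _)).irreducible_iff.mpr hirr
    rw [isRelPrime_comm, hirr2.isRelPrime_iff_not_dvd]
    rintro ⟨T, hT⟩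
    have : D.eval 1 = 0 := by
      rw [hT]
      simp
    omega
  have hdvd : D ∣ P := by
    apply hrel.dvd_of_dvd_mul_left
    rw [hdiv0]
    exact dvd_mul_right _ _
  obtain ⟨h, hh⟩ := hdvd
  have hP0 : P ≠ 0 := by
    rintro rfl
    simp at hPpos
  have hh0 : h ≠ 0 := by
    rintro rfl
    exact hP0 (by rw [hh, mul_zero])
  have hdegs : s = E + h.natDegree := by
    rw [← hPdeg, hh, Polynomial.natDegree_mul hDm.ne_zero hh0, hDdeg]
  refine ⟨h, h.natDegree, by omega, rfl, ?_, ?_, ?_⟩
  · have h1 : P.reflect s = D.reflect E * h.reflect h.natDegree := by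
      rw [hdegs]
      nth_rewrite 1 [hh]
      exact Polynomial.reflect_mul _ _ hDdeg.le le_rfl
    rw [hPpal, hDrefl] at h1
    rw [hh] at h1
    exact (mul_left_cancel₀ hDm.ne_zero h1).symm
  · have h1 : P.eval 1 = D.eval 1 * h.eval 1 := by
      nth_rewrite 1 [hh]
      rw [Polynomial.eval_mul]
    rw [h1] at hPpos
    exact (mul_pos_iff_of_pos_left hDeval).mp hPpos
  · have h1 : (D : PowerSeries ℤ) * ((1 - PowerSeries.X) ^ (n + 1) * H) =
        (D : PowerSeries ℤ) * (h : PowerSeries ℤ) := by
      rw [← Polynomial.coe_mul, ← hh, hP2]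
      push_cast
      ring
    have hD0 : (D : PowerSeries ℤ) ≠ 0 := by
      intro h0
      apply hDm.ne_zero
      apply Polynomial.coe_injective ℤ
      rw [h0, Polynomial.coe_zero]
    exact mul_left_cancel₀ hD0 h1

end Pool.Agent.FAI
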