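import Pool.Agent.FAI.Bound
import Pool.Agent.FAI.Gor
import Pool.Agent.FAI.Num

/-!
# The bound for the alpha invariant in terms of dimension and index
-/

open DirectSum
open scoped ENNReal NNReal

namespace Pool.Agent.FAI

variable {R : Type*} [CommRing R] [IsDomain R] [Algebra ℂ R] {A : ℕ → Submodule ℂ R}
  [GradedAlgebra A]

theorem mem_vertex_pow {n : ℕ} {θ : Fin (n + 1) → R} {d : Fin (n + 1) → ℕ} {b B : ℕ}
    (hθ : ∀ i, 0 < d i ∧ θ i ∈ A (d i)) (hB : ∀ i, d i ≤ B)
    (hbig : ∀ k, b < k → ∀ x ∈ A k, x ∈ Ideal.span (Set.range θ)) (a : ℕ) :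
    ∀ j, b + a * B < j → ∀ x ∈ A j, x ∈ (vertex A) ^ a := by
  induction a with
  | zero =>
    intro j _ x _
    rw [pow_zero, Ideal.one_eq_top]
    trivial
  | succ a ih =>
    intro j hj x hx
    obtain ⟨c, hc⟩ := Ideal.mem_span_range_iff_exists_fun.mp
      (hbig j (lt_of_le_of_lt (Nat.le_add_right _ _) hj) x hx)
    have h1 : ((decompose A x j : A j) : R) = x := decompose_of_mem_same A hx
    rw [← h1, ← hc, decompose_sum, DFinsupp.finsetSum_apply, AddSubmonoidClass.coe_finsetSum]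
    refine Ideal.sum_mem _ fun i _ => ?_
    have hjd : d i ≤ j := by
      have := hB i
      have h2 : B ≤ (a + 1) * B := Nat.le_mul_of_pos_left B (by omega)
      omega
    rw [coe_decompose_mul_of_right_mem_of_le A (hθ i).2 hjd, pow_succ]
    refine Ideal.mul_mem_mul (ih (j - d i) ?_ _ (decompose A (c i) (j - d i)).2)
      (mem_vertex_of_mem (hθ i).1 (hθ i).2)
    have h3 : (a + 1) * B = a * B + B := by ring
    have := hB i
    omega

theorem hf_bot (k : ℕ) : hf A (⊥ : Ideal R) k = Module.finrank ℂ (A k) := by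
  have : piece A (⊥ : Ideal R) k = ⊥ := by
    ext x
    rw [mem_piece, Submodule.mem_bot, Submodule.mem_bot]
    constructor
    · exact fun h => h.1
    · rintro rfl
      exact ⟨rfl, Submodule.zero_mem _⟩
  unfold hf
  rw [this]
  simp

theorem col_bot {g : R} (hg : g ≠ 0) : col (⊥ : Ideal R) g = ⊥ := by
  ext x
  rw [mem_col, Submodule.mem_bot, Submodule.mem_bot, mul_eq_zero]
  exact ⟨fun h => h.resolve_left hg, fun h => Or.inr h⟩

theorem bot_homogeneous : (⊥ : Ideal R).IsHomogeneous A := Ideal.IsHomogeneous.bot A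

theorem exists_height_one [IsNoetherianRing R] (hfin : ∀ k, FiniteDimensional ℂ (A k))
    {n : ℕ} (hn : 1 ≤ n) {θ : Fin (n + 1) → R} {d : Fin (n + 1) → ℕ} {b : ℕ}
    (hθ : ∀ i, 0 < d i ∧ θ i ∈ A (d i))
    (hbig : ∀ k, b < k → ∀ x ∈ A k, x ∈ Ideal.span (Set.range θ))
    {h : Polynomial ℤ} (hpos : 0 < h.eval 1)
    (hh : (1 - PowerSeries.X) ^ (n + 1) * HS A (⊥ : Ideal R) = (h : PowerSeries ℤ))
    {k : ℕ} (hk : 0 < k) {g : R} (hg : g ∈ A k) (hg0 : g ≠ 0) :
    ∃ P : Ideal R, P.IsPrime ∧ g ∈ P ∧ P.height ≤ 1 ∧ ¬ vertex A ≤ P := by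
  by_contra hcon
  push Not at hcon
  have hmin : ∀ P ∈ (Ideal.span {g}).minimalPrimes, vertex A ≤ P := by
    intro P hP
    have hPp : P.IsPrime := hP.1.1
    exact hcon P hPp (hP.1.2 (Ideal.mem_span_singleton_self g))
      (Ideal.height_le_one_of_isPrincipal_of_mem_minimalPrimes (Ideal.span {g}) P hP)
  have hrad : vertex A ≤ (Ideal.span {g}).radical := by
    rw [← Ideal.sInf_minimalPrimes]
    exact le_sInf hmin
  obtain ⟨a, ha⟩ := Ideal.exists_radical_pow_le_of_fg (Ideal.span {g})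
    (IsNoetherian.noetherian _)
  have ha2 : (vertex A) ^ a ≤ Ideal.span {g} := (Ideal.pow_right_mono hrad a).trans ha
  have hB : ∀ i, d i ≤ ∑ i, d i := fun i =>
    Finset.single_le_sum (fun _ _ => Nat.zero_le _) (Finset.mem_univ i)
  have hz : ∀ j, b + a * (∑ i, d i) < j → hf A (Ideal.span {g}) j = 0 := by
    intro j hj
    have : piece A (Ideal.span {g}) j = A j := by
      ext x
      rw [mem_piece]
      exact ⟨fun h => h.2, fun hx => ⟨ha2 (mem_vertex_pow hθ hB hbig a j hj x hx), hx⟩⟩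
    unfold hf
    rw [this]
    simp
  have hG : ∃ G : Polynomial ℤ, HS A (Ideal.span {g}) = (G : PowerSeries ℤ) := by
    refine ⟨∑ j ∈ Finset.range (b + a * (∑ i, d i) + 1),
      Polynomial.monomial j (hf A (Ideal.span {g}) j), ?_⟩
    ext j
    rw [HS, PowerSeries.coeff_mk, Polynomial.coeff_coe, Polynomial.finsetSum_coeff]
    simp only [Polynomial.coeff_monomial]
    rw [Finset.sum_ite_eq' (Finset.range _) j]
    split_ifs with hj
    · rfl
    · exact hz j (by simpa using hj)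
  obtain ⟨G, hG⟩ := hG
  have h1 := HS_sup hfin bot_homogeneous hg hg0
  rw [bot_sup_eq, col_bot hg0, hG] at h1
  have h2 : ((1 - Polynomial.X) ^ (n + 1) * G : Polynomial ℤ) =
      (1 - Polynomial.X ^ k) * h := by
    apply Polynomial.coe_injective ℤ
    push_cast
    rw [h1, ← hh]
    ring
  rw [← mul_neg_geom_sum, pow_succ] at h2
  have h0 : (1 - Polynomial.X : Polynomial ℤ) ≠ 0 := by
    intro h0
    have := congrArg (Polynomial.eval 0) h0
    simp at this
  have h3 : ((1 - Polynomial.X) ^ n * G : Polynomial ℤ) =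
      (∑ i ∈ Finset.range k, Polynomial.X ^ i) * h := by
    apply mul_left_cancel₀ h0
    calc (1 - Polynomial.X : Polynomial ℤ) * ((1 - Polynomial.X) ^ n * G) =
        (1 - Polynomial.X) ^ n * (1 - Polynomial.X) * G := by ring
      _ = _ := h2
      _ = _ := by ring
  have h4 := congrArg (Polynomial.eval 1) h3
  rw [Polynomial.eval_mul, Polynomial.eval_mul, Polynomial.eval_finsetSum] at h4
  have h5 : (0 : ℤ) ^ n = 0 := zero_pow (by omega)
  simp only [Polynomial.eval_pow, Polynomial.eval_sub, Polynomial.eval_one, Polynomial.eval_X,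
    sub_self, one_pow, Finset.sum_const, Finset.card_range, nsmul_eq_mul, mul_one, h5,
    zero_mul] at h4
  have h6 : (0 : ℤ) < k * h.eval 1 := by positivity
  omega

theorem main_bound {n r : ℕ} (hn : 1 ≤ n) (hr : 1 ≤ r) (hX : IsFanoCone A n r) :
    alpha A r ≤ ((2 * ((n + 1 - r) / 4) + 1 : ℕ) : ℝ≥0∞) / r := by
  classical
  have hft := hX.finiteType
  have hnor := hX.normal
  have hN : IsNoetherianRing R := Algebra.FiniteType.isNoetherianRing ℂ R
  have hfin := finite_piece A hX.degree_zero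
  obtain ⟨θ, d, s, b, w, hθ, hreg, hbig, hs, hw, hwI, hwv, hsoc⟩ := hX.gorenstein
  have hIh : (Ideal.span (Set.range θ)).IsHomogeneous A := by
    rw [← ini_last]
    exact ini_homogeneous (fun i => (hθ i).2) _
  have hS : Soc A (Ideal.span (Set.range θ)) s b w := ⟨hIh, hbig, hw, hwI, hwv, hsoc⟩
  have hne : Ideal.span (Set.range θ) ≠ ⊤ := by
    intro h
    apply hwI
    rw [h]
    trivial
  obtain ⟨P, hP, hPdeg, hPpal, hPpos⟩ := hS.exists_poly hfin
  have h1 := HS_ini hfin (fun i => (hθ i).2) hreg hne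
  rw [hP] at h1
  obtain ⟨a, Q, hQ⟩ := pole_one hX.degree_zero hX.cartier (⊥ : Ideal R) bot_homogeneous
  obtain ⟨h, N, hNr, hdeg, hpal, hpos, hh⟩ :=
    exists_numerator (fun i => (hθ i).1) hs h1 hPdeg hPpal hPpos hQ
  -- the least degree with sections
  have hθ0 : θ 0 ≠ 0 := by
    intro h0
    have h2 := hreg 0 1 (by rw [h0, zero_mul]; exact Ideal.zero_mem _)
    have h3 : (Ideal.span {y | ∃ j < (0 : Fin (n + 1)), y = θ j} : Ideal R) = ini θ 0 := rfl
    rw [h3, ini_zero, Submodule.mem_bot] at h2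
    exact one_ne_zero h2
  have hex : ∃ k, 0 < k ∧ ∃ g ∈ A k, g ≠ 0 := ⟨d 0, (hθ 0).1, θ 0, (hθ 0).2, hθ0⟩
  obtain ⟨hk0, g, hg, hg0⟩ := Nat.find_spec hex
  set k := Nat.find hex with hk
  have hlow : ∀ j, 0 < j → j < k → hf A (⊥ : Ideal R) j = 0 := by
    intro j hj hjk
    have h2 := Nat.find_min hex hjk
    rw [hf_bot]
    have h3 : A j = ⊥ := by
      rw [Submodule.eq_bot_iff]
      intro x hx
      by_contra hx0
      exact h2 ⟨hj, x, hx, hx0⟩
    rw [h3]
    simp
  have hzero : hf A (⊥ : Ideal R) 0 = 1 := by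
    rw [hf_bot]
    have h2 : Module.finrank ℂ (A 0) = 1 := by
      refine (finrank_eq_one_iff_of_nonzero' (⟨1, SetLike.one_mem_graded A⟩ : A 0) ?_).mpr ?_
      · intro h3
        have := congrArg Subtype.val h3
        exact one_ne_zero this
      · rintro ⟨x, hx⟩
        obtain ⟨c, hc⟩ := hX.degree_zero x hx
        refine ⟨c, Subtype.ext ?_⟩
        change c • (1 : R) = x
        rw [hc, Algebra.algebraMap_eq_smul_one]
    rw [h2]
    rfl
  have hco : ∀ i < k, h.coeff i = (-1) ^ i * ((n + 1).choose i : ℤ) := by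
    intro i hi
    rw [← Polynomial.coeff_coe h, ← hh, ← coeff_one_sub_pow]
    have h2 : ((1 - PowerSeries.X) ^ (n + 1) : PowerSeries ℤ) =
        (((1 - Polynomial.X) ^ (n + 1) : Polynomial ℤ) : PowerSeries ℤ) := by
      push_cast
      rfl
    rw [h2, PowerSeries.coeff_mul, Finset.sum_eq_single (i, 0)]
    · rw [HS, PowerSeries.coeff_mk, hzero, mul_one, Polynomial.coeff_coe]
    · rintro ⟨p, q⟩ hpq hne2
      have h3 := Finset.HasAntidiagonal.mem_antidiagonal.mp hpq
      have h4 : 0 < q := by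
        rcases Nat.eq_zero_or_pos q with h5 | h5
        · exfalso
          apply hne2
          simp only at h3
          rw [Prod.mk.injEq]
          exact ⟨by omega, h5⟩
        · exact h5
      simp only at h3
      rw [HS, PowerSeries.coeff_mk, hlow q h4 (by omega), mul_zero]
    · intro h3
      exact absurd (Finset.HasAntidiagonal.mem_antidiagonal.mpr (Nat.add_zero i)) h3
  have hk1 : k ≤ 2 * (N / 4) + 1 := numeric hNr hr hdeg hpal hpos hco
  obtain ⟨Pr, hPr, hgP, hht, hv⟩ := exists_height_one hfin hn hθ hbig hpos hh hk0 hg hg0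
  refine (alpha_le_of_mem A hr hk0 hg hg0 Pr hPr hgP hht hv).trans ?_
  have hN2 : n + 1 - r = N := by omega
  rw [hN2]
  gcongr

end Pool.Agent.FAI
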